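import Pool.Agent.Helper49_HM.Asm2
import Pool.Agent.Helper4_HM.NumFinal

/-!
# Every reduced free homotopy class is realized at zero angular momentum (MP_39d7ff_an)

For equal masses, and for all masses sufficiently close to equal, at every negative energy and
angular momentum `0`, every free homotopy class of loops in `M / SO(2)` (the trivial class
included) contains the loop of a collision free solution which is periodic modulo rotations.
-/

namespace Pool.Agent.Results.MP_39d7ff_an.HsiangZeroMomentum

open Pool.Agent.HM

theorem result : ∃ ε : ℝ, 0 < ε ∧ ∀ m : Fin 3 → ℝ, (∀ i, 0 < m i) →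
    (∀ i j, |m i / m j - 1| < ε) → ∀ h : ℝ, h < 0 →
      ∀ γ : C(AddCircle (1 : ℝ), RConf m), Realizes m h γ :=
  main_of_num numA numB

end Pool.Agent.Results.MP_39d7ff_an.HsiangZeroMomentum
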